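import Pool.Agent.GRR.All

/-!
# MP_9e2625_co, Q1: the redundant subgraph of G(n, c/n) is globally rigid

For every fixed `c > 0`, with probability tending to one the random graph `G = G(n, c/n)` has the
following property: if the generic completion rank of `G` is `d + 1 ≥ 4` then the
`(d-1)`-redundant subgraph of `G` is generically globally `(d-1)`-rigid.
-/

set_option autoImplicit false

open Filter Topology Pool.Agent.GRR

namespace Pool.Agent.Results.MP_9e2625_co.RedundantGloballyRigid

theorem result : ∀ c : ℝ, 0 < c →
    Tendsto (fun n : ℕ => Problem.prob n (c / n) (fun G => Problem.Good G)) atTop (𝓝 1) :=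
  all_fin

end Pool.Agent.Results.MP_9e2625_co.RedundantGloballyRigid
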